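import Mathlib

set_option autoImplicit false

open Finset

namespace Pool.Agent.H68Z.QR

theorem choose_ratio (m d P t : ℕ) (h1 : 4 * P * t ≤ m) (h2 : m ≤ 2 * P * d) :
    m.choose t ≤ (4 * P) ^ t * d.choose t := by
  have h3 : m ≤ 4 * P * (d + 1 - t) := by
    rcases Nat.eq_zero_or_pos P with hP | hP
    · subst hP; omega
    have h4 : t ≤ d := by
      by_contra h
      have : 2 * P * d < 4 * P * t := by nlinarith
      omega
    obtain ⟨e, rfl⟩ := Nat.exists_eq_add_of_le h4
    have : t + e + 1 - t = e + 1 := by omega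
    rw [this]
    nlinarith
  have h5 : (m.choose t : ℝ) ≤ (m : ℝ) ^ t / t.factorial := Nat.choose_le_pow_div t m
  have h6 : (((d + 1 - t : ℕ) : ℝ) ^ t) / t.factorial ≤ d.choose t := Nat.pow_le_choose t d
  have h7 : (m : ℝ) ^ t ≤ (4 * P) ^ t * ((d + 1 - t : ℕ) : ℝ) ^ t := by
    rw [← mul_pow]
    apply pow_le_pow_left₀ (by positivity)
    exact_mod_cast h3
  have h8 : (m.choose t : ℝ) ≤ (4 * P) ^ t * d.choose t := by
    calc (m.choose t : ℝ) ≤ (m : ℝ) ^ t / t.factorial := h5
      _ ≤ (4 * P) ^ t * ((d + 1 - t : ℕ) : ℝ) ^ t / t.factorial := by gcongr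
      _ = (4 * P) ^ t * (((d + 1 - t : ℕ) : ℝ) ^ t / t.factorial) := by ring
      _ ≤ _ := by gcongr
  exact_mod_cast h8

open Classical in
theorem kst {X M : Type} [Fintype X] [Fintype M] (A : X → M → Prop) (P t : ℕ) (hP : 0 < P)
    (hm0 : 0 < Fintype.card M) (hm : 4 * P * t ≤ Fintype.card M)
    (hA : Fintype.card X * Fintype.card M ≤
      P * (univ.filter (fun p : X × M => A p.1 p.2)).card) :
    ∃ T : Finset M, T.card = t ∧
      Fintype.card X ≤ (4 * P) ^ (t + 1) * (univ.filter (fun x : X => ∀ v ∈ T, A x v)).card := by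
  set m := Fintype.card M with hmdef
  let N : X → Finset M := fun x => univ.filter (fun v => A x v)
  have hsum : (univ.filter (fun p : X × M => A p.1 p.2)).card = ∑ x, (N x).card := by
    rw [card_filter, Fintype.sum_prod_type]
    refine sum_congr rfl fun x _ => ?_
    rw [card_filter]
  let G : Finset X := univ.filter (fun x => m ≤ 2 * P * (N x).card)
  have hG : Fintype.card X ≤ 2 * P * G.card := by
    have h1 : ∀ x, 2 * P * (N x).card ≤ (if x ∈ G then 2 * P * m else 0) + m := by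
      intro x
      split_ifs with hx
      · have : (N x).card ≤ m := card_le_univ _
        nlinarith
      · have : ¬ m ≤ 2 * P * (N x).card := fun h => hx (mem_filter.2 ⟨mem_univ _, h⟩)
        omega
    have h2 : ∑ x, 2 * P * (N x).card ≤ ∑ x, ((if x ∈ G then 2 * P * m else 0) + m) :=
      sum_le_sum fun x _ => h1 x
    rw [← mul_sum, sum_add_distrib, ← hsum, sum_ite_mem, univ_inter, sum_const, sum_const,
      card_univ, smul_eq_mul, smul_eq_mul] at h2
    have h3 : Fintype.card X * m ≤ (2 * P * G.card) * m := by nlinarith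
    exact Nat.le_of_mul_le_mul_right h3 hm0
  let c : Finset M → ℕ := fun T => (univ.filter (fun x : X => ∀ v ∈ T, A x v)).card
  have hdc : ∑ T ∈ powersetCard t (univ : Finset M), c T = ∑ x, (N x).card.choose t := by
    simp only [c, card_filter]
    rw [sum_comm]
    refine sum_congr rfl fun x _ => ?_
    rw [← card_filter, ← card_powersetCard]
    congr 1
    ext T
    simp only [mem_filter, mem_powersetCard, subset_univ, true_and, N]
    constructor
    · rintro ⟨h1, h2⟩
      exact ⟨fun v hv => mem_filter.2 ⟨mem_univ _, h2 v hv⟩, h1⟩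
    · rintro ⟨h1, h2⟩
      exact ⟨h2, fun v hv => (mem_filter.1 (h1 hv)).2⟩
  have hle : ∑ _T ∈ powersetCard t (univ : Finset M), G.card ≤
      ∑ T ∈ powersetCard t (univ : Finset M), (4 * P) ^ t * c T := by
    rw [← mul_sum, hdc, sum_const, card_powersetCard, card_univ, smul_eq_mul, mul_sum]
    calc m.choose t * G.card = ∑ _x ∈ G, m.choose t := by rw [sum_const, smul_eq_mul, mul_comm]
      _ ≤ ∑ x ∈ G, (4 * P) ^ t * (N x).card.choose t :=
        sum_le_sum fun x hx => choose_ratio m _ P t hm (mem_filter.1 hx).2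
      _ ≤ _ := sum_le_sum_of_subset (subset_univ _)
  have hne : (powersetCard t (univ : Finset M)).Nonempty := by
    rw [powersetCard_nonempty, card_univ]
    nlinarith
  obtain ⟨T, hT1, hT2⟩ := exists_le_of_sum_le hne hle
  refine ⟨T, (mem_powersetCard.1 hT1).2, ?_⟩
  calc Fintype.card X ≤ 2 * P * G.card := hG
    _ ≤ 4 * P * ((4 * P) ^ t * c T) := Nat.mul_le_mul (by omega) hT2
    _ = _ := by ring

open Classical in
theorem box {M : Type} [Fintype M] (A : M → M → M → M → Prop) (P t : ℕ) (hP : 0 < P)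
    (hm0 : 0 < Fintype.card M)
    (hm : 4 * (4 * (4 * (4 * P) ^ (t + 1)) ^ (t + 1)) ^ (t + 1) * t ≤ Fintype.card M)
    (hA : Fintype.card M ^ 4 ≤
      P * (univ.filter (fun p : ((M × M) × M) × M => A p.1.1.1 p.1.1.2 p.1.2 p.2)).card) :
    ∃ T1 T2 T3 T4 : Finset M, T1.card = t ∧ T2.card = t ∧ T3.card = t ∧ T4.card = t ∧
      ∀ a ∈ T1, ∀ b ∈ T2, ∀ c ∈ T3, ∀ d ∈ T4, A a b c d := by
  have hmono : ∀ Q : ℕ, 0 < Q → Q ≤ (4 * Q) ^ (t + 1) := by
    intro Q hQ
    calc Q ≤ 4 * Q := by omega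
      _ ≤ (4 * Q) ^ (t + 1) := Nat.le_self_pow (by omega) _
  set P1 := (4 * P) ^ (t + 1) with hP1
  have hP1pos : 0 < P1 := by positivity
  set P2 := (4 * P1) ^ (t + 1) with hP2
  have hP2pos : 0 < P2 := by positivity
  set P3 := (4 * P2) ^ (t + 1) with hP3
  have hP3pos : 0 < P3 := by positivity
  have l1 : P ≤ P1 := hmono P hP
  have l2 : P1 ≤ P2 := hmono P1 hP1pos
  have l3 : P2 ≤ P3 := hmono P2 hP2pos
  have hb : ∀ Q, Q ≤ P3 → 4 * Q * t ≤ Fintype.card M := fun Q hQ =>
    le_trans (Nat.mul_le_mul_right _ (Nat.mul_le_mul_left _ hQ)) hm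
  obtain ⟨T4, h4, k4⟩ := kst (X := (M × M) × M) (fun x d => A x.1.1 x.1.2 x.2 d) P t hP hm0
    (hb _ (by omega)) (by
      simp only [Fintype.card_prod]
      convert hA using 1
      ring)
  obtain ⟨T3, h3, k3⟩ := kst (X := M × M) (fun x c => ∀ d ∈ T4, A x.1 x.2 c d) P1 t hP1pos hm0
    (hb _ (by omega)) (by
      rw [← Fintype.card_prod]
      convert k4 using 4)
  obtain ⟨T2, h2, k2⟩ := kst (X := M) (fun a b => ∀ c ∈ T3, ∀ d ∈ T4, A a b c d) P2 t hP2pos hm0
    (hb _ (by omega)) (by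
      rw [← Fintype.card_prod]
      convert k3 using 4)
  have h5 : t ≤ (univ.filter (fun a : M => ∀ b ∈ T2, ∀ c ∈ T3, ∀ d ∈ T4, A a b c d)).card := by
    have h6 := (hb P3 le_rfl).trans k2
    have h7 : P3 * t ≤ 4 * P3 * t := by nlinarith
    have h8 := h7.trans h6
    convert Nat.le_of_mul_le_mul_left h8 hP3pos using 3
  obtain ⟨T1, h11, h12⟩ := exists_subset_card_eq h5
  exact ⟨T1, T2, T3, T4, h12, h2, h3, h4, fun a ha => (mem_filter.1 (h11 ha)).2⟩

end Pool.Agent.H68Z.QR
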