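import Pool.Agent.H68Z.QR.Box

set_option autoImplicit false

open Finset

namespace Pool.Agent.H68Z.QR

open Classical in
theorem fibre (k m : ℕ) (i1 i2 i3 i4 : Fin k) (hc : ({i1, i2, i3, i4} : Finset (Fin k)).card = 4)
    (A : Fin m → Fin m → Fin m → Fin m → Prop) :
    (univ.filter (fun g : Fin k → Fin m => A (g i1) (g i2) (g i3) (g i4))).card ≤
      m ^ (k - 4) * (univ.filter
        (fun p : ((Fin m × Fin m) × Fin m) × Fin m => A p.1.1.1 p.1.1.2 p.1.2 p.2)).card := by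
  refine card_le_mul_card_image_of_maps_to (f := fun g : Fin k → Fin m =>
    (((g i1, g i2), g i3), g i4)) (fun g hg => ?_) _ (fun p _ => ?_)
  · simpa using hg
  · let I : Finset (Fin k) := {i1, i2, i3, i4}
    have h1 : Fintype.card ({x : Fin k // x ∉ I} → Fin m) = m ^ (k - 4) := by
      rw [Fintype.card_fun, Fintype.card_fin, Fintype.card_subtype_compl, Fintype.card_fin,
        Fintype.card_coe, hc]
    rw [← h1, ← card_univ]
    refine card_le_card_of_injOn (fun g x => g x.1) (fun _ _ => mem_coe.2 (mem_univ _)) ?_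
    intro g hg g' hg' hgg
    have e1 := (mem_filter.1 (mem_coe.1 hg)).2
    have e2 := (mem_filter.1 (mem_coe.1 hg')).2
    have e3 := e1.trans e2.symm
    simp only [Prod.mk.injEq] at e3
    funext x
    by_cases hx : x ∈ I
    · simp only [I, mem_insert, mem_singleton] at hx
      rcases hx with rfl | rfl | rfl | rfl
      · exact e3.1.1.1
      · exact e3.1.1.2
      · exact e3.1.2
      · exact e3.2
    · exact congrFun hgg ⟨x, hx⟩

/-- The size of the parts. -/
def sz (k : ℕ) : ℕ := 4 * (4 * (4 * (4 * k ^ 4) ^ (k + 1)) ^ (k + 1)) ^ (k + 1) * k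

theorem dich (k : ℕ) (hk : 4 ≤ k) (m : ℕ) (hm : m = sz k) (φ : Finset (Fin (k * m)) → Fin 2) :
    (∃ S : Finset (Fin (k * m)), S.card = k ∧ ∀ E ∈ S.powersetCard 4, φ E = 0) ∨
    (∃ S : Finset (Fin (k * m)), S.card = 4 * k ∧
      k ^ 4 ≤ ((S.powersetCard 4).filter (fun E => φ E = 1)).card) := by
  classical
  have hm0 : 0 < m := by rw [hm, sz]; positivity
  let e : Fin k × Fin m ≃ Fin (k * m) := finProdFinEquiv
  by_cases h : ∃ g : Fin k → Fin m, ∀ E ∈ (univ.image (fun i => e (i, g i))).powersetCard 4, φ E = 0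
  · obtain ⟨g, hg⟩ := h
    refine Or.inl ⟨_, ?_, hg⟩
    rw [card_image_of_injective, card_univ, Fintype.card_fin]
    intro i j hij
    exact (Prod.mk.inj (e.injective hij)).1
  right
  push Not at h
  let A : (Fin k × Fin k × Fin k × Fin k) → Fin m → Fin m → Fin m → Fin m → Prop :=
    fun I a b c d => φ {e (I.1, a), e (I.2.1, b), e (I.2.2.1, c), e (I.2.2.2, d)} = 1
  let good : Finset (Fin k × Fin k × Fin k × Fin k) :=
    univ.filter (fun I => ({I.1, I.2.1, I.2.2.1, I.2.2.2} : Finset (Fin k)).card = 4)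
  have h1 : ∀ g : Fin k → Fin m, ∃ I ∈ good, A I (g I.1) (g I.2.1) (g I.2.2.1) (g I.2.2.2) := by
    intro g
    obtain ⟨E, hE1, hE2⟩ := h g
    obtain ⟨hE3, hE4⟩ := mem_powersetCard.1 hE1
    obtain ⟨J, hJ1, hJ2⟩ := subset_image_iff.1 hE3
    have hJ3 : J.card = 4 := by
      rw [← hE4, ← hJ2, card_image_of_injective]
      intro i j hij
      exact (Prod.mk.inj (e.injective hij)).1
    obtain ⟨a, b, c, d, -, -, -, -, -, -, hJ⟩ := card_eq_four.1 hJ3
    refine ⟨(a, b, c, d), mem_filter.2 ⟨mem_univ _, by rw [← hJ3, hJ]⟩, ?_⟩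
    have : E = {e (a, g a), e (b, g b), e (c, g c), e (d, g d)} := by
      rw [← hJ2, hJ]; simp
    show φ {e (a, g a), e (b, g b), e (c, g c), e (d, g d)} = 1
    rw [← this]
    omega
  let cnt : (Fin k × Fin k × Fin k × Fin k) → ℕ := fun I => (univ.filter
    (fun p : ((Fin m × Fin m) × Fin m) × Fin m => A I p.1.1.1 p.1.1.2 p.1.2 p.2)).card
  have h2 : m ^ k ≤ ∑ I ∈ good, m ^ (k - 4) * cnt I := by
    calc m ^ k = (univ : Finset (Fin k → Fin m)).card := by simp
      _ ≤ (good.biUnion (fun I => univ.filter (fun g : Fin k → Fin m =>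
            A I (g I.1) (g I.2.1) (g I.2.2.1) (g I.2.2.2)))).card := by
          refine card_le_card fun g _ => ?_
          obtain ⟨I, hI1, hI2⟩ := h1 g
          exact mem_biUnion.2 ⟨I, hI1, mem_filter.2 ⟨mem_univ _, hI2⟩⟩
      _ ≤ _ := card_biUnion_le.trans (sum_le_sum fun I hI => by
          have := fibre k m I.1 I.2.1 I.2.2.1 I.2.2.2 (mem_filter.1 hI).2 (A I)
          refine le_trans (le_of_eq ?_) (this.trans (le_of_eq ?_))
          · congr
          · simp only [cnt]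
            congr)
  have h3 : ∃ I ∈ good, m ^ 4 ≤ k ^ 4 * cnt I := by
    by_contra h4
    push Not at h4
    have hne : good.Nonempty := by
      obtain ⟨I, hI, -⟩ := h1 (fun _ => ⟨0, hm0⟩)
      exact ⟨I, hI⟩
    have h5 : ∑ I ∈ good, k ^ 4 * cnt I < ∑ _I ∈ good, m ^ 4 := sum_lt_sum_of_nonempty hne h4
    have h6 : good.card ≤ k ^ 4 := by
      refine (card_le_univ _).trans ?_
      simp only [Fintype.card_prod, Fintype.card_fin]
      exact le_of_eq (by ring)
    rw [← mul_sum, sum_const, smul_eq_mul] at h5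
    rw [← mul_sum] at h2
    have h7 : ∑ I ∈ good, cnt I < m ^ 4 :=
      Nat.lt_of_mul_lt_mul_left (h5.trans_le (Nat.mul_le_mul_right _ h6))
    have h8 : m ^ k = m ^ (k - 4) * m ^ 4 := by rw [← pow_add]; congr 1; omega
    rw [h8] at h2
    have := Nat.le_of_mul_le_mul_left h2 (by positivity)
    omega
  obtain ⟨⟨i1, i2, i3, i4⟩, hI1, hI2⟩ := h3
  obtain ⟨T1, T2, T3, T4, c1, c2, c3, c4, hT⟩ := box (A (i1, i2, i3, i4)) (k ^ 4) k (by positivity)
    (by simpa using hm0) (by rw [Fintype.card_fin, hm, sz]) (by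
      rw [Fintype.card_fin]; convert hI2)
  have hcard : ({i1, i2, i3, i4} : Finset (Fin k)).card = 4 := (mem_filter.1 hI1).2
  have hd : i1 ≠ i2 ∧ i1 ≠ i3 ∧ i1 ≠ i4 ∧ i2 ≠ i3 ∧ i2 ≠ i4 ∧ i3 ≠ i4 := by
    have hlt : ∀ a b c : Fin k, ({a, b, c} : Finset (Fin k)).card ≤ 3 := fun a b c => card_le_three
    refine ⟨?_, ?_, ?_, ?_, ?_, ?_⟩ <;> rintro rfl
    · have := hlt i1 i3 i4; simp only [mem_insert, true_or, insert_eq_of_mem] at hcard; omega
    · have := hlt i2 i1 i4; simp only [mem_insert, true_or, or_true, insert_eq_of_mem] at hcard; omega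
    · have := hlt i2 i3 i1
      simp only [mem_insert, mem_singleton, or_true, insert_eq_of_mem] at hcard; omega
    · have := hlt i1 i2 i4; simp only [mem_insert, true_or, insert_eq_of_mem] at hcard; omega
    · have := hlt i1 i3 i2
      simp only [mem_insert, mem_singleton, or_true, insert_eq_of_mem] at hcard; omega
    · have := hlt i1 i2 i3
      simp only [mem_singleton, insert_eq_of_mem] at hcard; omega
  obtain ⟨d12, d13, d14, d23, d24, d34⟩ := hd
  let S0 : Finset (Fin k × Fin m) := ({i1} ×ˢ T1 ∪ {i2} ×ˢ T2) ∪ ({i3} ×ˢ T3 ∪ {i4} ×ˢ T4)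
  have hS0 : S0.card = 4 * k := by
    simp only [S0]
    rw [card_union_of_disjoint, card_union_of_disjoint, card_union_of_disjoint]
    · simp only [card_product, card_singleton, c1, c2, c3, c4]; omega
    all_goals
      rw [disjoint_left]
      rintro ⟨i, a⟩ h1 h2
      simp only [mem_union, mem_product, mem_singleton] at h1 h2
      grind
  refine ⟨S0.map e.toEmbedding, by rw [card_map, hS0], ?_⟩
  have h9 : k ^ 4 = (((T1 ×ˢ T2) ×ˢ T3) ×ˢ T4).card := by
    simp only [card_product, c1, c2, c3, c4]; ring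
  rw [h9]
  refine card_le_card_of_injOn (fun p => {e (i1, p.1.1.1), e (i2, p.1.1.2), e (i3, p.1.2),
    e (i4, p.2)}) ?_ ?_
  · rintro ⟨⟨⟨a, b⟩, c⟩, d⟩ hp
    simp only [coe_product, Set.mem_prod, mem_coe] at hp
    obtain ⟨⟨⟨ha, hb⟩, hc⟩, hd⟩ := hp
    refine mem_coe.2 (mem_filter.2 ⟨mem_powersetCard.2 ⟨?_, ?_⟩, hT a ha b hb c hc d hd⟩)
    · intro x hx
      simp only [mem_insert, mem_singleton] at hx
      rcases hx with rfl | rfl | rfl | rfl <;>
        exact mem_map.2 ⟨_, by simp [S0, ha, hb, hc, hd], rfl⟩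
    · rw [card_eq_four]
      refine ⟨_, _, _, _, ?_, ?_, ?_, ?_, ?_, ?_, rfl⟩ <;>
        simp [d12, d13, d14, d23, d24, d34]
  · rintro ⟨⟨⟨a, b⟩, c⟩, d⟩ - ⟨⟨⟨a', b'⟩, c'⟩, d'⟩ - hpp
    have hpp' : ({e (i1, a), e (i2, b), e (i3, c), e (i4, d)} : Finset (Fin (k * m))) =
        {e (i1, a'), e (i2, b'), e (i3, c'), e (i4, d')} := hpp
    have m1 : e (i1, a) ∈ ({e (i1, a'), e (i2, b'), e (i3, c'), e (i4, d')} : Finset _) := by
      rw [← hpp']; simp
    have m2 : e (i2, b) ∈ ({e (i1, a'), e (i2, b'), e (i3, c'), e (i4, d')} : Finset _) := by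
      rw [← hpp']; simp
    have m3 : e (i3, c) ∈ ({e (i1, a'), e (i2, b'), e (i3, c'), e (i4, d')} : Finset _) := by
      rw [← hpp']; simp
    have m4 : e (i4, d) ∈ ({e (i1, a'), e (i2, b'), e (i3, c'), e (i4, d')} : Finset _) := by
      rw [← hpp']; simp
    simp only [mem_insert, mem_singleton, EmbeddingLike.apply_eq_iff_eq, Prod.mk.injEq] at m1 m2 m3 m4
    grind

theorem sz_le (k : ℕ) (hk : 1 ≤ k) : k * sz k ≤ 2 ^ (64 * k ^ 4) := by
  have h0 : k ≤ 2 ^ k := Nat.lt_two_pow_self.le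
  have step : ∀ P a : ℕ, P ≤ 2 ^ a → (4 * P) ^ (k + 1) ≤ 2 ^ ((a + 2) * (k + 1)) := by
    intro P a h
    rw [pow_mul]
    apply Nat.pow_le_pow_left
    rw [pow_add]
    omega
  have h1 : k ^ 4 ≤ 2 ^ (k * 4) := by rw [pow_mul]; exact Nat.pow_le_pow_left h0 4
  have h2 := step _ _ (step _ _ (step _ _ h1))
  set a := (((k * 4 + 2) * (k + 1) + 2) * (k + 1) + 2) * (k + 1) with ha
  calc k * sz k ≤ 2 ^ k * (4 * 2 ^ a * 2 ^ k) := by
        unfold sz
        gcongr
    _ = 2 ^ (a + 2 * k + 2) := by ring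
    _ ≤ 2 ^ (64 * k ^ 4) := by
        apply Nat.pow_le_pow_right (by norm_num)
        have e1 : k ≤ k ^ 2 := Nat.le_self_pow (by norm_num) _
        have e2 : k ^ 2 ≤ k ^ 3 := Nat.pow_le_pow_right hk (by norm_num)
        have e3 : k ^ 3 ≤ k ^ 4 := Nat.pow_le_pow_right hk (by norm_num)
        have e4 : a = 4 * k ^ 4 + 14 * k ^ 3 + 20 * k ^ 2 + 16 * k + 6 := by rw [ha]; ring
        omega

end Pool.Agent.H68Z.QR
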